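import Pool.Agent.Helper74.CO.Goals

/-!
# Project CO, packet CO-EXC2
-/

set_option autoImplicit false

namespace Pool.Agent.Helper98.CO

open Finset Pool.Agent.Helper74.CO

theorem t_EXC2 (hSX : SX) (hSUB : SUB) : EXC2 := by
  intro E hE
  refine ⟨8 * E, ?_⟩
  intro F _ _ _ α X p _ a d hp hcard hgen hinv h5 hC hd1 hd2 ha hcop hda
  by_contra hcon
  push Not at hcon
  set N := #X with hN
  set A := a.natAbs with hA
  have hAabs : (A : ℤ) = |a| := Int.natCast_natAbs a
  have hApos : 32 * E < A := by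
    have : (32 * E : ℤ) < (A : ℤ) := by rw [hAabs]; exact hcon
    exact_mod_cast this
  have h4 : 4 * E * A ≤ N := by
    have : (4 * E * A : ℤ) ≤ (N : ℤ) := by rw [hAabs]; exact ha
    exact_mod_cast this
  have hNpos : 0 < N := by
    have : 0 < 8 * E := by omega
    omega
  have hXne : X.Nonempty := Finset.card_pos.mp hNpos
  set m := min (N / (8 * E)) (p / A - d) with hm
  have hm1 : m ≤ N / (8 * E) := min_le_left _ _
  have hm2 : m ≤ p / A - d := min_le_right _ _
  have hm8 : 8 * E * m ≤ N := le_trans (Nat.mul_le_mul_left _ hm1) (Nat.mul_div_le N (8 * E))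
  -- the cost
  have hcost : ∀ n₀ n₁ : ℕ, n₀ < A → n₁ < m →
      2 * #(X.image (· + ((n₀ : F) + (n₁ : F) * α)) \ X) ≤ N := by
    intro n₀ n₁ h0 h1
    have hs := (hSUB F X).2 2 (fun k => if k = 0 then n₀ else n₁)
      (fun k => if k = 0 then (1 : F) else α)
    have e1 : (∑ k ∈ range 2, ((if k = 0 then n₀ else n₁ : ℕ) : F) *
        (if k = 0 then (1 : F) else α)) = (n₀ : F) + (n₁ : F) * α := by
      simp [Finset.sum_range_succ]
    have e2 : (∑ k ∈ range 2, (if k = 0 then n₀ else n₁) *
        #(X.image (· + (if k = 0 then (1 : F) else α)) \ X)) =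
        n₀ * #(X.image (· + (1 : F)) \ X) + n₁ * #(X.image (· + α) \ X) := by
      simp [Finset.sum_range_succ]
    rw [e1, e2] at hs
    have c0 := hinv 0
    have c1 := hinv 1
    simp only [zpow_zero, Int.natAbs_zero, zpow_one, Int.natAbs_one] at c0 c1
    have c0' : #(X.image (· + (1 : F)) \ X) ≤ E := by omega
    have c1' : #(X.image (· + α) \ X) ≤ 2 * E := by omega
    have k0 : n₀ * #(X.image (· + (1 : F)) \ X) ≤ A * E := Nat.mul_le_mul h0.le c0'
    have k1 : n₁ * #(X.image (· + α) \ X) ≤ m * (2 * E) := Nat.mul_le_mul h1.le c1'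
    have k2 : 2 * (A * E + m * (2 * E)) ≤ N := by nlinarith
    omega
  -- injectivity
  have hinj : Set.InjOn (fun q : ℕ × ℕ => (q.1 : F) + (q.2 : F) * α)
      (range A ×ˢ range m : Finset (ℕ × ℕ)) := by
    rintro ⟨n₀, n₁⟩ hq ⟨n₀', n₁'⟩ hq' heq
    simp only [Finset.coe_product, Set.mem_prod, Finset.mem_coe, Finset.mem_range] at hq hq'
    simp only at heq
    have hmpos : 0 < m := lt_of_le_of_lt (Nat.zero_le _) hq.2
    have hAm : A * (d + m) ≤ p := by
      have : d + m ≤ p / A := by omega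
      calc A * (d + m) ≤ A * (p / A) := Nat.mul_le_mul_left _ this
        _ ≤ p := Nat.mul_div_le p A
    have hz : ((d * ((n₀ : ℤ) - n₀') + a * ((n₁ : ℤ) - n₁') : ℤ) : F) = 0 := by
      push_cast
      have h1 : (d : F) * ((n₀ : F) + n₁ * α) = (d : F) * ((n₀' : F) + n₁' * α) := by rw [heq]
      have h2 : (d : F) * (n₀ : F) + (n₁ : F) * ((d : F) * α) =
          (d : F) * (n₀' : F) + (n₁' : F) * ((d : F) * α) := by linear_combination h1
      rw [hda] at h2
      linear_combination h2
    have hdvd : (p : ℤ) ∣ d * ((n₀ : ℤ) - n₀') + a * ((n₁ : ℤ) - n₁') :=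
      (CharP.intCast_eq_zero_iff F p _).mp hz
    have b0 : |(n₀ : ℤ) - n₀'| ≤ (A : ℤ) - 1 := by
      rw [abs_le]; constructor <;> omega
    have b1 : |(n₁ : ℤ) - n₁'| ≤ (m : ℤ) - 1 := by
      rw [abs_le]; constructor <;> omega
    have hlt : |(d * ((n₀ : ℤ) - n₀') + a * ((n₁ : ℤ) - n₁') : ℤ)| < p := by
      have t0 : |(d : ℤ) * ((n₀ : ℤ) - n₀')| ≤ d * ((A : ℤ) - 1) := by
        rw [abs_mul, abs_of_nonneg (by positivity : (0 : ℤ) ≤ d)]
        exact mul_le_mul_of_nonneg_left b0 (by positivity)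
      have t1 : |a * ((n₁ : ℤ) - n₁')| ≤ A * ((m : ℤ) - 1) := by
        rw [abs_mul, ← hAabs]
        exact mul_le_mul_of_nonneg_left b1 (by positivity)
      have t2 := abs_add_le ((d : ℤ) * ((n₀ : ℤ) - n₀')) (a * ((n₁ : ℤ) - n₁'))
      have t3 : (A : ℤ) * (d + m) ≤ p := by exact_mod_cast hAm
      have t4 : (0 : ℤ) < A := by omega
      have t5 : (1 : ℤ) ≤ d := by exact_mod_cast hd1
      nlinarith
    have hzero : (d * ((n₀ : ℤ) - n₀') + a * ((n₁ : ℤ) - n₁') : ℤ) = 0 :=
      Int.eq_zero_of_abs_lt_dvd hdvd hlt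
    have hadvd : a ∣ (d : ℤ) * ((n₀ : ℤ) - n₀') := by
      refine ⟨-((n₁ : ℤ) - n₁'), ?_⟩
      linear_combination hzero
    have hadvd2 : a ∣ (n₀ : ℤ) - n₀' := hcop.dvd_of_dvd_mul_left hadvd
    have hn0 : (n₀ : ℤ) - n₀' = 0 := by
      apply Int.eq_zero_of_abs_lt_dvd ((abs_dvd a _).mpr hadvd2)
      rw [← hAabs]; omega
    have ha0 : a ≠ 0 := by
      intro h0
      rw [h0] at hA
      simp at hA
      omega
    have hn1 : (n₁ : ℤ) - n₁' = 0 := by
      have : a * ((n₁ : ℤ) - n₁') = 0 := by rw [hn0] at hzero; linear_combination hzero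
      rcases mul_eq_zero.mp this with h | h
      · exact absurd h ha0
      · exact h
    have e0 : n₀ = n₀' := by omega
    have e1 : n₁ = n₁' := by omega
    rw [e0, e1]
  -- the count
  have hcount : A * m ≤ 2 * N := by
    have h := hSX F X ((range A ×ˢ range m).image (fun q : ℕ × ℕ => (q.1 : F) + (q.2 : F) * α))
      hXne (by
        intro s hs
        rw [Finset.mem_image] at hs
        obtain ⟨q, hq, rfl⟩ := hs
        rw [Finset.mem_product, Finset.mem_range, Finset.mem_range] at hq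
        exact hcost q.1 q.2 hq.1 hq.2)
    rw [Finset.card_image_of_injOn hinj, Finset.card_product, Finset.card_range,
      Finset.card_range] at h
    exact h
  rcases le_total (N / (8 * E)) (p / A - d) with hle | hle
  · have hme : m = N / (8 * E) := min_eq_left hle
    -- N < 16 E m
    have h8 : 0 < 8 * E := by omega
    have hdm : N < 8 * E * (N / (8 * E)) + 8 * E := by
      have := Nat.div_add_mod N (8 * E)
      have h2 := Nat.mod_lt N h8
      omega
    have hm1' : 1 ≤ m := by
      rw [hme]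
      exact (Nat.one_le_div_iff h8).mpr hC
    rw [← hme] at hdm
    have hdm2 : N < 16 * E * m := by nlinarith
    have : 32 * E * m < A * m + 1 := by nlinarith
    nlinarith
  · have hme : m = p / A - d := min_eq_right hle
    have hA0 : 0 < A := by omega
    have hpA : p < A * (p / A) + A := by
      have := Nat.div_add_mod p A
      have h2 := Nat.mod_lt p hA0
      omega
    have hk : p / A ≤ m + d := by omega
    have h1 : A * (p / A) ≤ A * (m + d) := Nat.mul_le_mul_left _ hk
    -- p < A (m + d) + A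
    have h2 : p < A * m + A * d + A := by nlinarith
    -- A d + A ≤ 3 N
    have h3 : A * d ≤ A * (8 * E) := Nat.mul_le_mul_left _ hd2
    have h4' : A * (8 * E) ≤ 2 * N := by nlinarith
    have h5' : A ≤ N := by nlinarith
    omega

end Pool.Agent.Helper98.CO
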